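import Pool.Agent.N637.SLX.Stm

/-!
# Equidistribution of linear and quadratic forms over the field with two elements

Project SLX (helper637); this file by helper787.
-/

set_option autoImplicit false
set_option linter.all false

open scoped Classical

namespace Pool.Agent.N787.SLX

open Finset

/-- the sign -/
noncomputable def chi (z : ZMod 2) : ℝ := if z = 0 then 1 else -1

theorem z2 (z : ZMod 2) : z = 0 ∨ z = 1 := by
  revert z; decide

theorem chi_zero : chi 0 = 1 := if_pos rfl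

theorem chi_one : chi 1 = -1 := if_neg (by decide)

theorem chi_add (x y : ZMod 2) : chi (x + y) = chi x * chi y := by
  have h11 : (1 : ZMod 2) + 1 = 0 := by decide
  rcases z2 x with rfl | rfl <;> rcases z2 y with rfl | rfl
  · rw [add_zero, chi_zero, one_mul]
  · rw [zero_add, chi_zero, one_mul]
  · rw [add_zero, chi_zero, mul_one]
  · rw [h11, chi_one, chi_zero]; norm_num

theorem abs_chi (x : ZMod 2) : |chi x| = 1 := by
  rcases z2 x with rfl | rfl
  · rw [chi_zero, abs_one]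
  · rw [chi_one, abs_neg, abs_one]

theorem chi_sum {ι : Type*} (s : Finset ι) (f : ι → ZMod 2) :
    chi (∑ i ∈ s, f i) = ∏ i ∈ s, chi (f i) := by
  induction s using Finset.induction_on with
  | empty => simp [chi_zero]
  | insert a s ha ih => rw [sum_insert ha, prod_insert ha, chi_add, ih]

/-- A sum with a translation which changes the sign. -/
theorem tr {Y : Type*} [AddCommGroup Y] [Fintype Y] (φ : Y → ZMod 2) (E : Y)
    (h : ∀ y, φ (y + E) = φ y + 1) : ∑ y, chi (φ y) = 0 := by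
  have h1 : ∑ y, chi (φ (y + E)) = ∑ y, chi (φ y) :=
    Equiv.sum_comp (Equiv.addRight E) (fun y => chi (φ y))
  have h2 : ∑ y, chi (φ (y + E)) = - ∑ y, chi (φ y) := by
    rw [← sum_neg_distrib]
    exact sum_congr rfl fun y _ => by rw [h, chi_add, chi_one]; ring
  linarith

theorem orth {I : Type*} [Fintype I] [DecidableEq I] (F : I → ZMod 2) :
    ∑ c : I → ZMod 2, chi (∑ i, c i * F i) =
      if ∀ i, F i = 0 then (2 : ℝ) ^ Fintype.card I else 0 := by
  split_ifs with h
  · have : ∀ c : I → ZMod 2, chi (∑ i, c i * F i) = 1 := by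
      intro c
      rw [sum_eq_zero fun i _ => by rw [h i, mul_zero], chi_zero]
    rw [sum_congr rfl fun c _ => this c, sum_const, card_univ, Fintype.card_fun, ZMod.card]
    simp
  · push Not at h
    obtain ⟨i, hi⟩ := h
    have hi1 : F i = 1 := (z2 _).resolve_left hi
    refine tr _ (Pi.single i 1) fun c => ?_
    have : ∀ j, (c + Pi.single i 1 : I → ZMod 2) j * F j =
        c j * F j + (if j = i then F i else 0) := by
      intro j
      by_cases hj : j = i
      · subst hj; simp [add_mul]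
      · simp [hj]
    rw [sum_congr rfl fun j _ => this j, sum_add_distrib, sum_ite_eq' univ i, if_pos (mem_univ _), hi1]

/-- Fourier inversion. -/
theorem fou {M Y : Type*} [Fintype M] [DecidableEq M] [Fintype Y] (f : (M → ZMod 2) → ℝ)
    (hf : ∀ W, |f W| ≤ 1) (L : Y → M → ZMod 2) (h : Y → ℝ) (B : ℝ)
    (hB : ∀ s : M → ZMod 2, |∑ y, chi (∑ m, s m * L y m) * h y| ≤ B) :
    |∑ y, f (L y) * h y| ≤ 2 ^ Fintype.card M * B := by
  have key : (2 : ℝ) ^ Fintype.card M * ∑ y, f (L y) * h y =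
      ∑ W : M → ZMod 2, ∑ s : M → ZMod 2, f W * chi (∑ m, s m * W m) *
        ∑ y, chi (∑ m, s m * L y m) * h y := by
    have h1 : ∀ W : M → ZMod 2, ∑ s : M → ZMod 2, f W * chi (∑ m, s m * W m) *
        ∑ y, chi (∑ m, s m * L y m) * h y =
        ∑ y, f W * h y * (if W = L y then (2 : ℝ) ^ Fintype.card M else 0) := by
      intro W
      have h2 : ∀ y, (if W = L y then (2 : ℝ) ^ Fintype.card M else 0) =
          ∑ s : M → ZMod 2, chi (∑ m, s m * (W m + L y m)) := by
        intro y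
        rw [orth (fun m => W m + L y m)]
        refine if_congr ?_ rfl rfl
        rw [funext_iff]
        refine forall_congr' fun m => ?_
        constructor
        · intro hm; rw [hm]; exact CharTwo.add_self_eq_zero _
        · intro hm
          have := CharTwo.add_self_eq_zero (L y m)
          linear_combination hm - this
      simp_rw [h2]
      rw [show ∑ s : M → ZMod 2, f W * chi (∑ m, s m * W m) *
        ∑ y, chi (∑ m, s m * L y m) * h y = ∑ s : M → ZMod 2, ∑ y,
          f W * chi (∑ m, s m * W m) * (chi (∑ m, s m * L y m) * h y) from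
          sum_congr rfl fun s _ => mul_sum _ _ _, sum_comm]
      refine sum_congr rfl fun y _ => ?_
      rw [mul_sum]
      refine sum_congr rfl fun s _ => ?_
      simp_rw [mul_add]
      rw [sum_add_distrib, chi_add]
      ring
    rw [sum_congr rfl fun W _ => h1 W, sum_comm, mul_sum]
    refine sum_congr rfl fun y _ => ?_
    rw [sum_eq_single (L y)]
    · rw [if_pos rfl]; ring
    · intro W _ hW
      rw [if_neg hW, mul_zero]
    · intro hy; exact absurd (mem_univ _) hy
  have hB0 : 0 ≤ B := le_trans (abs_nonneg _) (hB 0)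
  have h3 : |(2 : ℝ) ^ Fintype.card M * ∑ y, f (L y) * h y| ≤
      2 ^ Fintype.card M * (2 ^ Fintype.card M * B) := by
    rw [key]
    calc _ ≤ ∑ W : M → ZMod 2, ∑ s : M → ZMod 2, B := by
          refine (abs_sum_le_sum_abs _ _).trans (sum_le_sum fun W _ => ?_)
          refine (abs_sum_le_sum_abs _ _).trans (sum_le_sum fun s _ => ?_)
          rw [abs_mul, abs_mul, abs_chi, mul_one]
          calc |f W| * |∑ y, chi (∑ m, s m * L y m) * h y| ≤ 1 * B :=
                mul_le_mul (hf W) (hB s) (abs_nonneg _) zero_le_one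
            _ = B := one_mul B
      _ = _ := by
          rw [sum_const, sum_const, card_univ, Fintype.card_fun, ZMod.card]
          simp
  have hp : (0 : ℝ) < 2 ^ Fintype.card M := by positivity
  rw [abs_mul, abs_of_pos hp] at h3
  exact le_of_mul_le_mul_left h3 hp

theorem four (a b c d : ZMod 2) (h : a + b + c + d = 1) :
    |chi a + chi b + chi c + chi d| ≤ 2 := by
  have h11 : (1 : ZMod 2) + 1 = 0 := by decide
  rcases z2 a with rfl | rfl <;> rcases z2 b with rfl | rfl <;> rcases z2 c with rfl | rfl <;>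
    rcases z2 d with rfl | rfl <;> first
    | (exfalso; revert h; decide)
    | (simp only [chi_zero, chi_one]; norm_num)

/-- The sum of a quadratic form whose polarisation is not zero. -/
theorem quad {Y : Type*} [AddCommGroup Y] [Fintype Y] (Q : Y → ZMod 2) (E F : Y)
    (h : ∀ x, Q (x + E + F) + Q (x + E) + Q (x + F) + Q x = 1) :
    |∑ x, chi (Q x)| ≤ Fintype.card Y / 2 := by
  have h1 : ∑ y, chi (Q (y + E)) = ∑ y, chi (Q y) :=
    Equiv.sum_comp (Equiv.addRight E) (fun y => chi (Q y))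
  have h2 : ∑ y, chi (Q (y + F)) = ∑ y, chi (Q y) :=
    Equiv.sum_comp (Equiv.addRight F) (fun y => chi (Q y))
  have h3 : ∑ y, chi (Q (y + E + F)) = ∑ y, chi (Q y) := by
    have := Equiv.sum_comp (Equiv.addRight (E + F)) (fun y => chi (Q y))
    simpa only [Equiv.coe_addRight, ← add_assoc] using this
  have h4 : 4 * ∑ x, chi (Q x) =
      ∑ x, (chi (Q (x + E + F)) + chi (Q (x + E)) + chi (Q (x + F)) + chi (Q x)) := by
    rw [sum_add_distrib, sum_add_distrib, sum_add_distrib, h1, h2, h3]; ring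
  have h5 : |4 * ∑ x, chi (Q x)| ≤ ∑ x : Y, (2 : ℝ) := by
    rw [h4]
    exact (abs_sum_le_sum_abs _ _).trans (sum_le_sum fun x _ => four _ _ _ _ (h x))
  rw [abs_mul, abs_of_pos (by norm_num : (0 : ℝ) < 4), sum_const, card_univ, nsmul_eq_mul] at h5
  linarith

/-- The pairs. -/
abbrev P (n : ℕ) : Type := {p : Fin n × Fin n // p.1 < p.2}

theorem card_P (n : ℕ) : Fintype.card (P n) + Fintype.card (P n) = n * (n - 1) := by
  have h : Fintype.card (P n) = ∑ i ∈ range n, i := by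
    rw [Fintype.card_subtype, card_filter, Fintype.sum_prod_type, sum_comm,
      ← Fin.sum_univ_eq_sum_range]
    refine sum_congr rfl fun b _ => ?_
    rw [← card_filter]
    have : (univ.filter fun a : Fin n => a < b) = Iio b := by ext; simp
    rw [this, Fin.card_Iio]
  rw [h, ← sum_range_id_mul_two]
  ring

/-- The normal form of a quadratic form. -/
noncomputable def nf {n : ℕ} (C : P n → ZMod 2) (l : Fin n → ZMod 2) (x : Fin n → ZMod 2) : ZMod 2 :=
  ∑ p : P n, C p * (x p.1.1 * x p.1.2) + ∑ a, l a * x a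

theorem nf_pol {n : ℕ} (C : P n → ZMod 2) (l : Fin n → ZMod 2) (p₀ : P n) (h : C p₀ = 1)
    (x : Fin n → ZMod 2) :
    nf C l (x + Pi.single p₀.1.1 1 + Pi.single p₀.1.2 1) + nf C l (x + Pi.single p₀.1.1 1) +
      nf C l (x + Pi.single p₀.1.2 1) + nf C l x = 1 := by
  have h2 : (2 : ZMod 2) = 0 := by decide
  obtain ⟨E, hE⟩ : ∃ E : Fin n → ZMod 2, E = Pi.single p₀.1.1 1 := ⟨_, rfl⟩
  obtain ⟨F, hF⟩ : ∃ F : Fin n → ZMod 2, F = Pi.single p₀.1.2 1 := ⟨_, rfl⟩
  rw [← hE, ← hF]
  have h3 : nf C l (x + E + F) + nf C l (x + E) + nf C l (x + F) + nf C l x =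
      ∑ p : P n, C p * (E p.1.1 * F p.1.2 + F p.1.1 * E p.1.2) := by
    unfold nf
    have e1 : ∀ A B C' D A' B' C'' D' : ZMod 2, (A + A') + (B + B') + (C' + C'') + (D + D') =
      (A + B + C' + D) + (A' + B' + C'' + D') := by intros; ring
    rw [e1, ← sum_add_distrib, ← sum_add_distrib, ← sum_add_distrib, ← sum_add_distrib,
      ← sum_add_distrib, ← sum_add_distrib]
    have h4 : ∀ a, l a * (x + E + F) a + l a * (x + E) a + l a * (x + F) a + l a * x a = 0 := by
      intro a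
      simp only [Pi.add_apply]
      linear_combination (2 * l a * x a + l a * E a + l a * F a) * h2
    rw [sum_eq_zero fun a _ => h4 a, add_zero]
    refine sum_congr rfl fun p _ => ?_
    simp only [Pi.add_apply]
    linear_combination (C p * (2 * x p.1.1 * x p.1.2 + x p.1.1 * E p.1.2 + x p.1.1 * F p.1.2 +
      E p.1.1 * x p.1.2 + F p.1.1 * x p.1.2 + E p.1.1 * E p.1.2 + F p.1.1 * F p.1.2)) * h2
  rw [h3, sum_eq_single p₀]
  · have hne : p₀.1.1 ≠ p₀.1.2 := ne_of_lt p₀.2
    rw [h, hE, hF]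
    simp [hne, hne.symm]
  · rintro ⟨⟨a, b⟩, hab⟩ _ hp
    have hab' : a < b := hab
    obtain ⟨⟨⟨a₀, b₀⟩, h0⟩, hp0⟩ : ∃ q : P n, q = p₀ := ⟨_, rfl⟩
    subst hp0
    have h0' : a₀ < b₀ := h0
    have e1 : E a * F b = 0 := by
      rw [hE, hF]
      by_cases h5 : a = a₀
      · by_cases h6 : b = b₀
        · exact absurd (by subst h5; subst h6; rfl) hp
        · simp [h6]
      · simp [h5]
    have e2 : F a * E b = 0 := by
      rw [hE, hF]
      by_cases h5 : a = b₀
      · by_cases h6 : b = a₀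
        · exfalso
          subst h5; subst h6
          exact lt_asymm hab' h0'
        · simp [h6]
      · simp [h5]
    show C _ * (E a * F b + F a * E b) = 0
    rw [e1, e2, add_zero, mul_zero]
  · intro hp; exact absurd (mem_univ _) hp

theorem nf_bd {n : ℕ} (C : P n → ZMod 2) (l : Fin n → ZMod 2) (p₀ : P n) (h : C p₀ = 1) :
    |∑ x, chi (nf C l x)| ≤ 2 ^ n * (1 / 2) := by
  have := quad (nf C l) _ _ (nf_pol C l p₀ h)
  rw [Fintype.card_fun, ZMod.card, Fintype.card_fin] at this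
  push_cast at this
  linarith

theorem triv_bd {n : ℕ} (Q : (Fin n → ZMod 2) → ZMod 2) : |∑ x, chi (Q x)| ≤ 2 ^ n := by
  refine (abs_sum_le_sum_abs _ _).trans ?_
  rw [sum_congr rfl fun x _ => abs_chi _, sum_const, card_univ, Fintype.card_fun, ZMod.card,
    Fintype.card_fin]
  simp

/-- Factorisation. -/
theorem fac {n : ℕ} {J : Type*} [Fintype J] (q : J → (Fin n → ZMod 2) → ZMod 2) :
    ∑ y : Fin n → J → ZMod 2, chi (∑ k, q k (fun a => y a k)) =
      ∏ k, ∑ x : Fin n → ZMod 2, chi (q k x) := by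
  rw [prod_univ_sum, Fintype.piFinset_univ]
  rw [← Equiv.sum_comp (Equiv.piComm fun (_ : J) (_ : Fin n) => ZMod 2)]
  refine sum_congr rfl fun y _ => ?_
  rw [chi_sum]
  rfl

theorem fac_bd {n t : ℕ} {J : Type*} [Fintype J] (C : J → P n → ZMod 2) (l : J → Fin n → ZMod 2)
    (T : Finset J) (ht : t ≤ T.card) (p₀ : P n) (h : ∀ k ∈ T, C k p₀ = 1) :
    |∑ y : Fin n → J → ZMod 2, chi (∑ k, nf (C k) (l k) (fun a => y a k))| ≤
      2 ^ (n * Fintype.card J) / 2 ^ t := by
  rw [fac, abs_prod]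
  have h1 : ∀ k ∈ (univ : Finset J), |∑ x, chi (nf (C k) (l k) x)| ≤
      2 ^ n * (if k ∈ T then 1 / 2 else 1) := by
    intro k _
    split_ifs with hk
    · exact nf_bd _ _ p₀ (h k hk)
    · rw [mul_one]; exact triv_bd _
  refine (prod_le_prod (fun k _ => abs_nonneg _) h1).trans ?_
  rw [prod_mul_distrib, prod_const, card_univ, ← pow_mul, prod_ite, prod_const, prod_const_one,
    mul_one, filter_mem_eq_inter, univ_inter, one_div, inv_pow, div_eq_mul_inv]
  refine mul_le_mul_of_nonneg_left ?_ (by positivity)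
  exact inv_anti₀ (by positivity) (pow_le_pow_right₀ (by norm_num) ht)

section main

variable {n : ℕ} {J : Type} [Fintype J] {U : Type} [Fintype U] (g : U → J → ZMod 2)
  (c : Fin n → U → ZMod 2) (u e : J → ZMod 2) (κ μ : Fin n → ZMod 2)
  (L1 L2 : Fin n → Fin n → Fin n → J → ZMod 2) (α β : Fin n → Fin n → ZMod 2)

/-- The index type of the equations. -/
abbrev Ix (n : ℕ) (U : Type) : Type := (Fin n × U) ⊕ (P n ⊕ P n)

/-- The defects of the equations. -/
noncomputable def Fd (y : Fin n → J → ZMod 2) : Ix n U → ZMod 2 :=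
  Sum.elim (fun i => ∑ k, g i.2 k * y i.1 k - c i.1 i.2)
    (Sum.elim
      (fun p => (μ p.1.1 + ∑ k, u k * y p.1.1 k) * (μ p.1.2 + ∑ k, u k * y p.1.2 k) +
        ∑ k, u k * y p.1.1 k * y p.1.2 k + ∑ x, ∑ k, L1 p.1.1 p.1.2 x k * y x k - α p.1.1 p.1.2)
      (fun p => (κ p.1.1 + ∑ k, e k * y p.1.1 k) * (κ p.1.2 + ∑ k, e k * y p.1.2 k) +
        ∑ k, e k * y p.1.1 k * y p.1.2 k + ∑ x, ∑ k, L2 p.1.1 p.1.2 x k * y x k - β p.1.1 p.1.2))

/-- The nonlinear part as a function of the sums. -/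
noncomputable def Gd (b : Ix n U → ZMod 2) (W : Fin n ⊕ Fin n → ZMod 2) : ZMod 2 :=
  - ∑ i : Fin n × U, b (Sum.inl i) * c i.1 i.2 +
  ∑ p : P n, b (Sum.inr (Sum.inl p)) * ((μ p.1.1 + W (Sum.inl p.1.1)) * (μ p.1.2 + W (Sum.inl p.1.2)) -
    α p.1.1 p.1.2) +
  ∑ p : P n, b (Sum.inr (Sum.inr p)) * ((κ p.1.1 + W (Sum.inr p.1.1)) * (κ p.1.2 + W (Sum.inr p.1.2)) -
    β p.1.1 p.1.2)

theorem split (b : Ix n U → ZMod 2) (y : Fin n → J → ZMod 2) :
    ∑ i, b i * Fd g c u e κ μ L1 L2 α β y i =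
      Gd c κ μ α β b (Sum.elim (fun a => ∑ k, u k * y a k) (fun a => ∑ k, e k * y a k)) +
      ∑ k, nf (fun p : P n => b (Sum.inr (Sum.inl p)) * u k + b (Sum.inr (Sum.inr p)) * e k)
        (fun a => ∑ v, b (Sum.inl (a, v)) * g v k +
          ∑ p : P n, b (Sum.inr (Sum.inl p)) * L1 p.1.1 p.1.2 a k +
          ∑ p : P n, b (Sum.inr (Sum.inr p)) * L2 p.1.1 p.1.2 a k) (fun a => y a k) := by
  have E1 : ∑ i : Fin n × U, b (Sum.inl i) * ∑ k, g i.2 k * y i.1 k =
      ∑ k, ∑ a, (∑ v, b (Sum.inl (a, v)) * g v k) * y a k := by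
    rw [Fintype.sum_prod_type, sum_comm]
    rw [sum_comm]
    conv_rhs => rw [sum_comm]
    refine sum_congr rfl fun a _ => ?_
    simp_rw [mul_sum, sum_mul]
    rw [sum_comm]
    refine sum_congr rfl fun v _ => sum_congr rfl fun k _ => ?_
    ring
  have E2 : ∀ (γ : P n → ZMod 2) (w : J → ZMod 2),
      ∑ p : P n, γ p * ∑ k, w k * y p.1.1 k * y p.1.2 k =
      ∑ k, ∑ p : P n, γ p * w k * (y p.1.1 k * y p.1.2 k) := by
    intro γ w
    rw [sum_comm]
    refine sum_congr rfl fun p _ => ?_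
    rw [mul_sum]
    refine sum_congr rfl fun k _ => ?_
    ring
  have E3 : ∀ (γ : P n → ZMod 2) (L : Fin n → Fin n → Fin n → J → ZMod 2),
      ∑ p : P n, γ p * ∑ x, ∑ k, L p.1.1 p.1.2 x k * y x k =
      ∑ k, ∑ a, (∑ p : P n, γ p * L p.1.1 p.1.2 a k) * y a k := by
    intro γ L
    simp_rw [mul_sum, sum_mul]
    rw [sum_comm]
    conv_rhs => rw [sum_comm]
    refine sum_congr rfl fun a _ => ?_
    rw [sum_comm]
    refine sum_congr rfl fun k _ => sum_congr rfl fun p _ => ?_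
    ring
  have R : ∑ k, nf (fun p : P n => b (Sum.inr (Sum.inl p)) * u k + b (Sum.inr (Sum.inr p)) * e k)
        (fun a => ∑ v, b (Sum.inl (a, v)) * g v k +
          ∑ p : P n, b (Sum.inr (Sum.inl p)) * L1 p.1.1 p.1.2 a k +
          ∑ p : P n, b (Sum.inr (Sum.inr p)) * L2 p.1.1 p.1.2 a k) (fun a => y a k) =
      ∑ p : P n, b (Sum.inr (Sum.inl p)) * ∑ k, u k * y p.1.1 k * y p.1.2 k +
      ∑ p : P n, b (Sum.inr (Sum.inr p)) * ∑ k, e k * y p.1.1 k * y p.1.2 k +
      ∑ i : Fin n × U, b (Sum.inl i) * ∑ k, g i.2 k * y i.1 k +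
      ∑ p : P n, b (Sum.inr (Sum.inl p)) * ∑ x, ∑ k, L1 p.1.1 p.1.2 x k * y x k +
      ∑ p : P n, b (Sum.inr (Sum.inr p)) * ∑ x, ∑ k, L2 p.1.1 p.1.2 x k * y x k := by
    rw [E1, E2 (fun p => b (Sum.inr (Sum.inl p))) u, E2 (fun p => b (Sum.inr (Sum.inr p))) e,
      E3 (fun p => b (Sum.inr (Sum.inl p))) L1, E3 (fun p => b (Sum.inr (Sum.inr p))) L2]
    rw [← sum_add_distrib, ← sum_add_distrib, ← sum_add_distrib, ← sum_add_distrib]
    refine sum_congr rfl fun k _ => ?_
    unfold nf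
    rw [← sum_add_distrib]
    rw [add_assoc, add_assoc, ← sum_add_distrib, ← sum_add_distrib]
    congr 1
    · refine sum_congr rfl fun p _ => ?_
      ring
    · refine sum_congr rfl fun a _ => ?_
      ring
  rw [R, Fintype.sum_sum_type, Fintype.sum_sum_type]
  unfold Gd Fd
  simp only [Sum.elim_inl, Sum.elim_inr, mul_add, mul_sub, sum_add_distrib, sum_sub_distrib]
  ring

/-- The bound for a character which involves a quadratic equation. -/
theorem S_bd {t : ℕ} (b : Ix n U → ZMod 2) (T : Finset J) (ht : t ≤ T.card) (p₀ : P n)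
    (hT : ∀ k ∈ T, b (Sum.inr (Sum.inl p₀)) * u k + b (Sum.inr (Sum.inr p₀)) * e k = 1) :
    |∑ y : Fin n → J → ZMod 2, chi (∑ i, b i * Fd g c u e κ μ L1 L2 α β y i)| ≤
      2 ^ (n * Fintype.card J) * 2 ^ (2 * n) / 2 ^ t := by
  have h1 := fou (M := Fin n ⊕ Fin n) (Y := Fin n → J → ZMod 2) (fun W => chi (Gd c κ μ α β b W))
    (fun W => (abs_chi _).le)
    (fun y => Sum.elim (fun a => ∑ k, u k * y a k) (fun a => ∑ k, e k * y a k))
    (fun y => chi (∑ k, nf (fun p : P n => b (Sum.inr (Sum.inl p)) * u k +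
        b (Sum.inr (Sum.inr p)) * e k)
        (fun a => ∑ v, b (Sum.inl (a, v)) * g v k +
          ∑ p : P n, b (Sum.inr (Sum.inl p)) * L1 p.1.1 p.1.2 a k +
          ∑ p : P n, b (Sum.inr (Sum.inr p)) * L2 p.1.1 p.1.2 a k) (fun a => y a k)))
    (2 ^ (n * Fintype.card J) / 2 ^ t) ?_
  · have h2 : ∑ y : Fin n → J → ZMod 2, chi (∑ i, b i * Fd g c u e κ μ L1 L2 α β y i) =
      ∑ y : Fin n → J → ZMod 2, chi (Gd c κ μ α β b
        (Sum.elim (fun a => ∑ k, u k * y a k) (fun a => ∑ k, e k * y a k))) *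
        chi (∑ k, nf (fun p : P n => b (Sum.inr (Sum.inl p)) * u k +
        b (Sum.inr (Sum.inr p)) * e k)
        (fun a => ∑ v, b (Sum.inl (a, v)) * g v k +
          ∑ p : P n, b (Sum.inr (Sum.inl p)) * L1 p.1.1 p.1.2 a k +
          ∑ p : P n, b (Sum.inr (Sum.inr p)) * L2 p.1.1 p.1.2 a k) (fun a => y a k)) := by
      refine sum_congr rfl fun y _ => ?_
      rw [split, chi_add]
    rw [h2]
    refine h1.trans (le_of_eq ?_)
    rw [Fintype.card_sum, Fintype.card_fin, two_mul]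
    ring
  · intro s
    have h3 : ∀ y : Fin n → J → ZMod 2,
        chi (∑ m, s m * Sum.elim (fun a => ∑ k, u k * y a k) (fun a => ∑ k, e k * y a k) m) *
        chi (∑ k, nf (fun p : P n => b (Sum.inr (Sum.inl p)) * u k +
        b (Sum.inr (Sum.inr p)) * e k)
        (fun a => ∑ v, b (Sum.inl (a, v)) * g v k +
          ∑ p : P n, b (Sum.inr (Sum.inl p)) * L1 p.1.1 p.1.2 a k +
          ∑ p : P n, b (Sum.inr (Sum.inr p)) * L2 p.1.1 p.1.2 a k) (fun a => y a k)) =
        chi (∑ k, nf (fun p : P n => b (Sum.inr (Sum.inl p)) * u k +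
        b (Sum.inr (Sum.inr p)) * e k)
        (fun a => ∑ v, b (Sum.inl (a, v)) * g v k +
          ∑ p : P n, b (Sum.inr (Sum.inl p)) * L1 p.1.1 p.1.2 a k +
          ∑ p : P n, b (Sum.inr (Sum.inr p)) * L2 p.1.1 p.1.2 a k +
          s (Sum.inl a) * u k + s (Sum.inr a) * e k) (fun a => y a k)) := by
      intro y
      rw [← chi_add]
      congr 1
      rw [Fintype.sum_sum_type]
      simp only [Sum.elim_inl, Sum.elim_inr]
      have h4 : ∑ a, s (Sum.inl a) * ∑ k, u k * y a k + ∑ a, s (Sum.inr a) * ∑ k, e k * y a k =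
          ∑ k, ∑ a, (s (Sum.inl a) * u k + s (Sum.inr a) * e k) * y a k := by
        rw [← sum_add_distrib]
        conv_rhs => rw [sum_comm]
        refine sum_congr rfl fun a _ => ?_
        rw [mul_sum, mul_sum, ← sum_add_distrib]
        refine sum_congr rfl fun k _ => ?_
        ring
      rw [h4, ← sum_add_distrib]
      refine sum_congr rfl fun k _ => ?_
      unfold nf
      rw [add_left_comm, ← sum_add_distrib]
      congr 1
      refine sum_congr rfl fun a _ => ?_
      ring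
    rw [sum_congr rfl fun y _ => h3 y]
    exact fac_bd (fun k (p : P n) => b (Sum.inr (Sum.inl p)) * u k + b (Sum.inr (Sum.inr p)) * e k)
      _ T ht p₀ hT

/-- The characters which involve only linear equations. -/
theorem S_lin (hg : ∀ b : U → ZMod 2, (∀ k, ∑ v, b v * g v k = 0) → ∀ v, b v = 0)
    (b : Ix n U → ZMod 2) (h1 : ∀ p, b (Sum.inr p) = 0) (a₀ : Fin n) (v₀ : U)
    (h2 : b (Sum.inl (a₀, v₀)) ≠ 0) :
    ∑ y : Fin n → J → ZMod 2, chi (∑ i, b i * Fd g c u e κ μ L1 L2 α β y i) = 0 := by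
  obtain ⟨k₀, hk₀⟩ : ∃ k₀, ∑ v, b (Sum.inl (a₀, v)) * g v k₀ ≠ 0 := by
    by_contra hcon
    push Not at hcon
    exact h2 (hg (fun v => b (Sum.inl (a₀, v))) hcon v₀)
  have hk1 : ∑ v, b (Sum.inl (a₀, v)) * g v k₀ = 1 := (z2 _).resolve_left hk₀
  refine tr _ (fun a k => if a = a₀ ∧ k = k₀ then 1 else 0) fun y => ?_
  have hs : ∀ y : Fin n → J → ZMod 2, ∑ i, b i * Fd g c u e κ μ L1 L2 α β y i =
      ∑ i : Fin n × U, b (Sum.inl i) * (∑ k, g i.2 k * y i.1 k - c i.1 i.2) := by
    intro y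
    rw [Fintype.sum_sum_type, sum_eq_zero (f := fun p => b (Sum.inr p) * _) fun p _ => by
      rw [h1, zero_mul], add_zero]
    rfl
  rw [hs, hs]
  simp only [Pi.add_apply]
  rw [Fintype.sum_prod_type, Fintype.sum_prod_type]
  have h3 : ∀ a v, b (Sum.inl (a, v)) * (∑ k, g v k * (y a k + if a = a₀ ∧ k = k₀ then 1 else 0) -
      c a v) = b (Sum.inl (a, v)) * (∑ k, g v k * y a k - c a v) +
        if a = a₀ then b (Sum.inl (a, v)) * g v k₀ else 0 := by
    intro a v
    simp_rw [mul_add]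
    rw [sum_add_distrib]
    by_cases ha : a = a₀
    · subst ha
      simp only [true_and, mul_ite, mul_one, mul_zero, sum_ite_eq', mem_univ, if_true]
      ring
    · simp [ha]
  dsimp only
  simp_rw [h3]
  simp only [sum_add_distrib]
  congr 1
  rw [sum_eq_single a₀]
  · simpa using hk1
  · intro a _ ha
    simp [ha]
  · intro h; exact absurd (mem_univ _) h

end main

/-- SLX-QC. -/
theorem t_QC : Pool.Agent.N637.SLX.S_QC := by
  intro n t J _ U _ g c u e κ μ L1 L2 α β hg ht1 ht2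
  set B : ℝ := 2 ^ (n * Fintype.card J) * 2 ^ (2 * n) / 2 ^ t with hB
  set S : (Ix n U → ZMod 2) → ℝ := fun b =>
    ∑ y : Fin n → J → ZMod 2, chi (∑ i, b i * Fd g c u e κ μ L1 L2 α β y i) with hS
  have hS0 : S 0 = 2 ^ (n * Fintype.card J) := by
    rw [hS]
    simp only [Pi.zero_apply, zero_mul, sum_const_zero, chi_zero]
    rw [sum_const, card_univ, Fintype.card_fun, Fintype.card_fun, ZMod.card, Fintype.card_fin,
      ← pow_mul, mul_comm n]
    simp
  have hB0 : 0 ≤ B := by rw [hB]; positivity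
  have hSb : ∀ b, b ≠ 0 → |S b| ≤ B := by
    intro b hb
    by_cases h1 : ∃ p, b (Sum.inr (Sum.inl p)) ≠ 0
    · obtain ⟨p₀, hp₀⟩ := h1
      refine S_bd g c u e κ μ L1 L2 α β b _ ht1 p₀ fun k hk => ?_
      obtain ⟨hk1, hk2⟩ := (mem_filter.1 hk).2
      rw [hk1, hk2, (z2 _).resolve_left hp₀]; ring
    · push Not at h1
      by_cases h2 : ∃ p, b (Sum.inr (Sum.inr p)) ≠ 0
      · obtain ⟨p₀, hp₀⟩ := h2
        refine S_bd g c u e κ μ L1 L2 α β b _ ht2 p₀ fun k hk => ?_
        obtain ⟨hk1, hk2⟩ := (mem_filter.1 hk).2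
        rw [hk1, hk2, (z2 _).resolve_left hp₀]; ring
      · push Not at h2
        have h3 : ∀ p, b (Sum.inr p) = 0 := by
          rintro (p | p)
          · exact h1 p
          · exact h2 p
        obtain ⟨⟨a₀, v₀⟩, h4⟩ : ∃ i, b (Sum.inl i) ≠ 0 := by
          by_contra hcon
          push Not at hcon
          apply hb
          funext i
          rcases i with i | i
          · exact hcon i
          · exact h3 i
        rw [hS]
        simp only
        rw [S_lin g c u e κ μ L1 L2 α β hg b h3 a₀ v₀ h4, abs_zero]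
        exact hB0
  have hc : (2 : ℝ) ^ Fintype.card (Ix n U) *
      ((univ.filter fun y : Fin n → J → ZMod 2 => (∀ a v, ∑ k, g v k * y a k = c a v) ∧
      (∀ a b, a < b → (μ a + ∑ k, u k * y a k) * (μ b + ∑ k, u k * y b k) +
        ∑ k, u k * y a k * y b k + ∑ x, ∑ k, L1 a b x k * y x k = α a b) ∧
      (∀ a b, a < b → (κ a + ∑ k, e k * y a k) * (κ b + ∑ k, e k * y b k) +
        ∑ k, e k * y a k * y b k + ∑ x, ∑ k, L2 a b x k * y x k = β a b)).card : ℝ) =
      ∑ b, S b := by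
    rw [hS]
    simp only
    rw [sum_comm, card_filter, Nat.cast_sum, mul_sum]
    refine sum_congr rfl fun y _ => ?_
    rw [orth]
    have h5 : (∀ i, Fd g c u e κ μ L1 L2 α β y i = 0) ↔
      ((∀ a v, ∑ k, g v k * y a k = c a v) ∧
      (∀ a b, a < b → (μ a + ∑ k, u k * y a k) * (μ b + ∑ k, u k * y b k) +
        ∑ k, u k * y a k * y b k + ∑ x, ∑ k, L1 a b x k * y x k = α a b) ∧
      (∀ a b, a < b → (κ a + ∑ k, e k * y a k) * (κ b + ∑ k, e k * y b k) +
        ∑ k, e k * y a k * y b k + ∑ x, ∑ k, L2 a b x k * y x k = β a b)) := by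
      constructor
      · intro h
        refine ⟨fun a v => sub_eq_zero.1 (h (Sum.inl (a, v))), fun a b hab =>
          sub_eq_zero.1 (h (Sum.inr (Sum.inl ⟨(a, b), hab⟩))), fun a b hab =>
          sub_eq_zero.1 (h (Sum.inr (Sum.inr ⟨(a, b), hab⟩)))⟩
      · rintro ⟨h6, h7, h8⟩ (⟨a, v⟩ | ⟨⟨a, b⟩, hab⟩ | ⟨⟨a, b⟩, hab⟩)
        · exact sub_eq_zero.2 (h6 a v)
        · exact sub_eq_zero.2 (h7 a b hab)
        · exact sub_eq_zero.2 (h8 a b hab)
    by_cases h6 : ∀ i, Fd g c u e κ μ L1 L2 α β y i = 0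
    · rw [if_pos (h5.1 h6), if_pos h6, Nat.cast_one, mul_one]
    · rw [if_neg (fun h => h6 (h5.2 h)), if_neg h6, Nat.cast_zero, mul_zero]
  have hcard : (2 : ℝ) ^ Fintype.card (Ix n U) =
      2 ^ (n * Fintype.card U) * 2 ^ (n * (n - 1)) := by
    rw [← card_P, ← pow_add]
    congr 1
    rw [Fintype.card_sum, Fintype.card_sum, Fintype.card_prod, Fintype.card_fin]
  have hp : (0 : ℝ) < 2 ^ Fintype.card (Ix n U) := by positivity
  rw [← hcard]
  set N : ℝ := ((univ.filter fun y : Fin n → J → ZMod 2 => (∀ a v, ∑ k, g v k * y a k = c a v) ∧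
      (∀ a b, a < b → (μ a + ∑ k, u k * y a k) * (μ b + ∑ k, u k * y b k) +
        ∑ k, u k * y a k * y b k + ∑ x, ∑ k, L1 a b x k * y x k = α a b) ∧
      (∀ a b, a < b → (κ a + ∑ k, e k * y a k) * (κ b + ∑ k, e k * y b k) +
        ∑ k, e k * y a k * y b k + ∑ x, ∑ k, L2 a b x k * y x k = β a b)).card : ℝ) with hN
  have h9 : |(2 : ℝ) ^ Fintype.card (Ix n U) * N - S 0| ≤ 2 ^ Fintype.card (Ix n U) * B := by
    rw [hc, ← add_sum_erase univ S (mem_univ 0), add_sub_cancel_left]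
    refine (abs_sum_le_sum_abs _ _).trans ?_
    calc ∑ b ∈ univ.erase (0 : Ix n U → ZMod 2), |S b|
        ≤ ∑ b ∈ univ.erase (0 : Ix n U → ZMod 2), B :=
          sum_le_sum fun b hb => hSb b (mem_erase.1 hb).1
      _ ≤ ∑ b : Ix n U → ZMod 2, B :=
          sum_le_sum_of_subset_of_nonneg (erase_subset _ _) fun _ _ _ => hB0
      _ = _ := by
          rw [sum_const, card_univ, Fintype.card_fun, ZMod.card, nsmul_eq_mul]
          push_cast
          ring
  rw [hS0] at h9
  have h10 : (2 : ℝ) ^ Fintype.card (Ix n U) * (N - 2 ^ (n * Fintype.card J) /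
      2 ^ Fintype.card (Ix n U)) = 2 ^ Fintype.card (Ix n U) * N - 2 ^ (n * Fintype.card J) := by
    field_simp
  rw [← h10, abs_mul, abs_of_pos hp] at h9
  exact le_of_mul_le_mul_left h9 hp

end Pool.Agent.N787.SLX

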